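import Pool.Agent.H88.MX.Ed

/-!
# The case `m = 0`
-/

set_option autoImplicit false

namespace H36MX

open scoped Classical

/-- The local condition for `m = 0`. -/
theorem LocE_iff {V : Type} [AddCommGroup V] [Module (ZMod 2) V]
    {h : V →ₗ[ZMod 2] V →ₗ[ZMod 2] ZMod 2} (hsy : ∀ x y, h x y = h y x) {g : V} {p : V × V} :
    LocE h 0 g p ↔ (p.1 = 0 ∨ p.1 = g) ∧ h p.2 g = 0 := by
  unfold LocE
  rw [zero_add]
  constructor
  · rintro ⟨h1 | h1, h2⟩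
    · exact ⟨Or.inl h1.1, h1.2⟩
    · refine ⟨Or.inr h1, ?_⟩
      rw [hsy, ← h1]
      exact h2
  · rintro ⟨h1 | h1, h2⟩
    · refine ⟨Or.inl ⟨h1, h2⟩, ?_⟩
      rw [h1, map_zero, LinearMap.zero_apply]
    · refine ⟨Or.inr h1, ?_⟩
      rw [h1, hsy]
      exact h2

variable {J : Type} [Fintype J] {X : J → Type} [∀ j, AddCommGroup (X j)]
  [∀ j, Module (ZMod 2) (X j)]

theorem mem_Wst0 {h : ∀ j, X j →ₗ[ZMod 2] X j →ₗ[ZMod 2] ZMod 2}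
    {Ed : J → J → Prop} {lam : ∀ j, J → X j} {p : ∀ j, X j × X j} :
    p ∈ Wst h 0 Ed lam ↔ ∀ j z, h j (p j).2 z =
      ∑ k, if Ed j k then h j z (lam j k) * h k (p k).1 (lam k j) else 0 := by
  rw [mem_Wst]
  refine forall_congr' fun j => forall_congr' fun z => ?_
  rw [Pi.zero_apply, map_zero, zero_mul, zero_add]

theorem Q_W0 {h : ∀ j, X j →ₗ[ZMod 2] X j →ₗ[ZMod 2] ZMod 2}
    (hsy : ∀ j x y, h j x y = h j y x)
    {Ed : J → J → Prop} (hEs : ∀ j k, Ed j k → Ed k j) (hEi : ∀ j, ¬ Ed j j)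
    {lam : ∀ j, J → X j} {p : ∀ j, X j × X j} (hp : p ∈ Wst h 0 Ed lam) :
    ∑ j, h j (p j).1 (p j).2 = 0 := by
  have h1 := Q_W hsy hEs hEi hp
  simpa only [Pi.zero_apply, zero_add] using h1

/-- The case `m = 0` of `graph_zero`. -/
theorem graph_zero0 {D : Type} [Fintype D] {r : ℕ} {P : Type} [Fintype P]
    {X : P × Nd D r → Type} [∀ j, AddCommGroup (X j)]
    [∀ j, Module (ZMod 2) (X j)] {h : ∀ j, X j →ₗ[ZMod 2] X j →ₗ[ZMod 2] ZMod 2}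
    (hsy : ∀ j x y, h j x y = h j y x) (hnd : ∀ j x, x ≠ 0 → ∃ y, h j x y = 1)
    {lam : ∀ j, P × Nd D r → X j} (hr : 0 < r)
    (g : ∀ j, X j) (on : P → Fin r → D → Prop) (δ₀ : D) (h0 : ∀ p i, on p i δ₀)
    (hsep : ∀ p δ, δ ≠ δ₀ → ∃ i, ¬ on p i δ)
    (hon : ∀ p δ i, on p i δ → ∀ y : Nd D r,
      (Ee (ndA δ i) y → h (p, ndA δ i) (g (p, ndA δ i)) (lam (p, ndA δ i) (p, y)) = 1) ∧
      (Ee (ndB δ i) y → h (p, ndB δ i) (g (p, ndB δ i)) (lam (p, ndB δ i) (p, y)) = 1))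
    (hoff : ∀ p δ i, ¬ on p i δ → g (p, ndA δ i) = 0 ∧ g (p, ndB δ i) = 0)
    (hw : ∀ p (y : Nd D r), Ee (some none) y →
      h (p, some none) (g (p, some none)) (lam (p, some none) (p, y)) = 1)
    (hc : ∀ p (i : Fin r), i.val = 0 → h (p, none) (g (p, none)) (lam (p, none) (p, ndA δ₀ i)) = 1)
    {q : ∀ j, X j × X j} (hq : q ∈ Wst h 0 EJ lam)
    (hloc : ∀ j, ((q j).1 = 0 ∨ (q j).1 = g j) ∧ h j (q j).2 (g j) = 0) : q = 0 :=
  graph_zero hsy hnd hr g on δ₀ h0 hsep hon hoff hw hc hq fun j => (LocE_iff (hsy j)).2 (hloc j)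

end H36MX
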