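import Mathlib

/-!
# The explicit Lagrangian of the multiquadratic project

`J` is a finite set of places, `X j` a finite vector space over `ZMod 2` with a symmetric
nondegenerate bilinear form `h j`, `m j : X j`, `Ed` a graph on `J` and `lam j k : X j`.
`Wst` is the space of all families `(x_j, y_j)` with
`h (y_j, z) = h (x_j, m_j) h (z, m_j) + ∑_{k ~ j} h (z, lam_jk) h (x_k, lam_kj)` for all `z`.
-/

set_option autoImplicit false

namespace H36MX

open scoped Classical

variable {J : Type} [Fintype J] {X : J → Type} [∀ j, AddCommGroup (X j)]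
  [∀ j, Module (ZMod 2) (X j)]

/-- The Lagrangian subspace attached to the graph `Ed` and the vectors `m`, `lam`. -/
def Wst (h : ∀ j, X j →ₗ[ZMod 2] X j →ₗ[ZMod 2] ZMod 2) (m : ∀ j, X j) (Ed : J → J → Prop)
    (lam : ∀ j, J → X j) : Submodule (ZMod 2) (∀ j, X j × X j) where
  carrier := {p | ∀ j z, h j (p j).2 z = h j (p j).1 (m j) * h j z (m j) +
    ∑ k, if Ed j k then h j z (lam j k) * h k (p k).1 (lam k j) else 0}
  zero_mem' := by
    intro j z
    simp
  add_mem' := by
    intro p q hp hq j z
    have h1 := hp j z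
    have h2 := hq j z
    simp only [Pi.add_apply, Prod.fst_add, Prod.snd_add, map_add, LinearMap.add_apply] at *
    rw [h1, h2, add_mul, add_add_add_comm, ← Finset.sum_add_distrib]
    congr 1
    refine Finset.sum_congr rfl fun k _ => ?_
    split_ifs
    · rw [mul_add]
    · simp
  smul_mem' := by
    intro c p hp j z
    have h1 := hp j z
    simp only [Pi.smul_apply, Prod.smul_fst, Prod.smul_snd, map_smul, LinearMap.smul_apply,
      smul_eq_mul] at *
    rw [h1, mul_add, mul_assoc, Finset.mul_sum]
    congr 1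
    refine Finset.sum_congr rfl fun k _ => ?_
    split_ifs
    · ring
    · simp

theorem mem_Wst {h : ∀ j, X j →ₗ[ZMod 2] X j →ₗ[ZMod 2] ZMod 2} {m : ∀ j, X j}
    {Ed : J → J → Prop} {lam : ∀ j, J → X j} {p : ∀ j, X j × X j} :
    p ∈ Wst h m Ed lam ↔ ∀ j z, h j (p j).2 z = h j (p j).1 (m j) * h j z (m j) +
      ∑ k, if Ed j k then h j z (lam j k) * h k (p k).1 (lam k j) else 0 := Iff.rfl

theorem zsq (a : ZMod 2) : a * a = a := by
  revert a; decide

theorem zadd (a : ZMod 2) : a + a = 0 := by
  revert a; decide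

/-- Every linear functional on a finite `ZMod 2`-space with a nondegenerate form is given by a
vector. -/
theorem exists_vec {V : Type} [AddCommGroup V] [Module (ZMod 2) V] [Finite V]
    (h : V →ₗ[ZMod 2] V →ₗ[ZMod 2] ZMod 2) (hnd : ∀ x, x ≠ 0 → ∃ y, h x y = 1)
    (f : V →ₗ[ZMod 2] ZMod 2) : ∃ y, ∀ z, h y z = f z := by
  have hinj : Function.Injective h := by
    rw [injective_iff_map_eq_zero]
    intro x hx
    by_contra hne
    obtain ⟨y, hy⟩ := hnd x hne
    rw [hx] at hy
    simp at hy
  have : Module.Finite (ZMod 2) V := Module.Finite.of_finite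
  have hsurj : Function.Surjective h :=
    (LinearMap.injective_iff_surjective_of_finrank_eq_finrank
      (Subspace.dual_finrank_eq (K := ZMod 2) (V := V)).symm).1 hinj
  obtain ⟨y, hy⟩ := hsurj f
  exact ⟨y, fun z => by rw [hy]⟩

/-- The cardinality of the Lagrangian subspace. -/
theorem card_W [∀ j, Finite (X j)] {h : ∀ j, X j →ₗ[ZMod 2] X j →ₗ[ZMod 2] ZMod 2}
    (hnd : ∀ j x, x ≠ 0 → ∃ y, h j x y = 1) (m : ∀ j, X j)
    (Ed : J → J → Prop) (lam : ∀ j, J → X j) :
    Nat.card (Wst h m Ed lam) = ∏ j, Nat.card (X j) := by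
  rw [← Nat.card_pi]
  refine Nat.card_congr (Equiv.ofBijective (fun p j => (p.1 j).1) ⟨?_, ?_⟩)
  · rintro ⟨p, hp⟩ ⟨q, hq⟩ hpq
    have hx : ∀ j, (p j).1 = (q j).1 := fun j => congrFun hpq j
    refine Subtype.ext (funext fun j => Prod.ext (hx j) ?_)
    by_contra hne
    obtain ⟨z, hz⟩ := hnd j ((p j).2 - (q j).2) (sub_ne_zero.2 hne)
    have h1 := hp j z
    have h2 := hq j z
    rw [map_sub, LinearMap.sub_apply, h1, h2] at hz
    simp only [hx, sub_self] at hz
    exact zero_ne_one hz
  · intro x
    have hf : ∀ j, ∃ y, ∀ z, h j y z = h j (x j) (m j) * h j z (m j) +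
        ∑ k, if Ed j k then h j z (lam j k) * h k (x k) (lam k j) else 0 := by
      intro j
      let f : X j →ₗ[ZMod 2] ZMod 2 :=
        { toFun := fun z => h j (x j) (m j) * h j z (m j) +
            ∑ k, if Ed j k then h j z (lam j k) * h k (x k) (lam k j) else 0
          map_add' := by
            intro a b
            simp only [map_add, LinearMap.add_apply, mul_add, add_mul]
            rw [add_add_add_comm, ← Finset.sum_add_distrib]
            congr 1
            refine Finset.sum_congr rfl fun k _ => ?_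
            split_ifs <;> simp
          map_smul' := by
            intro c a
            simp only [map_smul, LinearMap.smul_apply, smul_eq_mul, RingHom.id_apply, mul_add,
              Finset.mul_sum]
            congr 1
            · ring
            · refine Finset.sum_congr rfl fun k _ => ?_
              split_ifs
              · ring
              · simp }
      exact exists_vec (h j) (hnd j) f
    choose y hy using hf
    exact ⟨⟨fun j => (x j, y j), fun j z => hy j z⟩, rfl⟩

/-- The quadratic form vanishes on the Lagrangian subspace. -/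
theorem Q_W {h : ∀ j, X j →ₗ[ZMod 2] X j →ₗ[ZMod 2] ZMod 2}
    (hsy : ∀ j x y, h j x y = h j y x) {m : ∀ j, X j}
    {Ed : J → J → Prop} (hEs : ∀ j k, Ed j k → Ed k j) (hEi : ∀ j, ¬ Ed j j)
    {lam : ∀ j, J → X j} {p : ∀ j, X j × X j} (hp : p ∈ Wst h m Ed lam) :
    ∑ j, h j (p j).1 (m j + (p j).2) = 0 := by
  have h1 : ∀ j, h j (p j).1 (m j + (p j).2) =
      ∑ k, if Ed j k then h j (p j).1 (lam j k) * h k (p k).1 (lam k j) else 0 := by
    intro j
    rw [map_add, hsy j (p j).1 (p j).2, hp j (p j).1, zsq, ← add_assoc, zadd, zero_add]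
  simp only [h1]
  rw [← Finset.sum_product']
  refine Finset.sum_involution (fun q _ => (q.2, q.1)) ?_ ?_ ?_ ?_
  · rintro ⟨j, k⟩ _
    by_cases h2 : Ed j k
    · simp only [h2, hEs j k h2, if_true]
      rw [mul_comm, zadd]
    · have h3 : ¬ Ed k j := fun h4 => h2 (hEs k j h4)
      simp [h2, h3]
  · rintro ⟨j, k⟩ _ h2 h3
    simp only [Prod.mk.injEq] at h3
    apply h2
    have h4 : j = k := h3.2
    subst h4
    simp [hEi]
  · rintro ⟨j, k⟩ _
    exact Finset.mem_univ _
  · rintro ⟨j, k⟩ _
    rfl

end H36MX
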