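import Pool.Agent.H88.MX.Ea

/-!
# Elimination: a vector of the Lagrangian subspace which satisfies the local conditions
-/

set_option autoImplicit false

namespace H36MX

open scoped Classical

variable {J : Type} [Fintype J] {X : J → Type} [∀ j, AddCommGroup (X j)]
  [∀ j, Module (ZMod 2) (X j)]

/-- A vector of `Wst` all of whose first components vanish is zero. -/
theorem Wst_zero {h : ∀ j, X j →ₗ[ZMod 2] X j →ₗ[ZMod 2] ZMod 2}
    (hnd : ∀ j x, x ≠ 0 → ∃ y, h j x y = 1) {m : ∀ j, X j}
    {Ed : J → J → Prop} {lam : ∀ j, J → X j} {p : ∀ j, X j × X j} (hp : p ∈ Wst h m Ed lam)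
    (h0 : ∀ j, (p j).1 = 0) : p = 0 := by
  funext j
  refine Prod.ext (h0 j) ?_
  by_contra hne
  obtain ⟨z, hz⟩ := hnd j (p j).2 hne
  have h1 := hp j z
  rw [hz] at h1
  simp only [h0, map_zero, LinearMap.zero_apply, zero_mul, mul_zero, ite_self,
    Finset.sum_const_zero, add_zero] at h1
  exact one_ne_zero h1

/-- The local condition at the place `j` for the class `g` of the twist. -/
def LocE {V : Type} [AddCommGroup V] [Module (ZMod 2) V]
    (h : V →ₗ[ZMod 2] V →ₗ[ZMod 2] ZMod 2) (m g : V) (p : V × V) : Prop :=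
  ((p.1 = 0 ∧ h p.2 g = 0) ∨ p.1 = g) ∧ h p.1 (m + p.2) = 0

/-- If a vector of `Wst` satisfies the local conditions then its first components are `κ_j g_j`
for a solution `κ` of a homogeneous linear system; so it is zero if this system has only the
trivial solution. -/
theorem elim {h : ∀ j, X j →ₗ[ZMod 2] X j →ₗ[ZMod 2] ZMod 2}
    (hsy : ∀ j x y, h j x y = h j y x) (hnd : ∀ j x, x ≠ 0 → ∃ y, h j x y = 1) {m : ∀ j, X j}
    {Ed : J → J → Prop} {lam : ∀ j, J → X j} {p : ∀ j, X j × X j} (hp : p ∈ Wst h m Ed lam)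
    (g : ∀ j, X j) (hloc : ∀ j, LocE (h j) (m j) (g j) (p j))
    (hsys : ∀ κ : J → ZMod 2, (∀ j, g j = 0 → κ j = 0) →
      (∀ j, ∑ k, (if Ed j k then h j (g j) (lam j k) * h k (g k) (lam k j) * κ k else 0) = 0) →
      ∀ j, κ j = 0) : p = 0 := by
  let κ : J → ZMod 2 := fun j => if (p j).1 = 0 then 0 else 1
  have hκ : ∀ j, (p j).1 = κ j • g j := by
    intro j
    by_cases h1 : (p j).1 = 0
    · simp [κ, h1]
    · have h2 : (p j).1 = g j := (hloc j).1.resolve_left (fun h3 => h1 h3.1)
      simp only [κ, h1, if_false, one_smul]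
      exact h2
  have hy : ∀ j, h j (p j).2 (g j) = κ j * h j (g j) (m j) := by
    intro j
    by_cases h1 : (p j).1 = 0
    · simp only [κ, h1, if_true, zero_mul]
      rcases (hloc j).1 with h2 | h2
      · exact h2.2
      · rw [← h2, h1, map_zero]
    · have h2 : (p j).1 = g j := (hloc j).1.resolve_left (fun h3 => h1 h3.1)
      simp only [κ, h1, if_false, one_mul]
      have h3 := (hloc j).2
      rw [h2, map_add] at h3
      rw [hsy j (p j).2 (g j)]
      have h4 : ∀ a b : ZMod 2, a + b = 0 → b = a := by decide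
      exact h4 _ _ h3
  have h0 : ∀ j, κ j = 0 := by
    refine hsys κ ?_ ?_
    · intro j hj
      have h1 := hκ j
      rw [hj, smul_zero] at h1
      simp [κ, h1]
    · intro j
      have h1 := hp j (g j)
      rw [hy j, hκ j, map_smul, LinearMap.smul_apply, smul_eq_mul, mul_assoc, zsq] at h1
      have h2 : ∀ a b : ZMod 2, a = a + b → b = 0 := by decide
      refine Eq.trans ?_ (h2 _ _ h1)
      refine Finset.sum_congr rfl fun k _ => ?_
      split_ifs
      · rw [hκ k, map_smul, LinearMap.smul_apply, smul_eq_mul]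
        ring
      · rfl
  refine Wst_zero hnd hp fun j => ?_
  rw [hκ j, h0 j, zero_smul]

end H36MX
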