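import Pool.Agent.H88.MX.Eb

/-!
# The graph: chains of pairs of places

The nodes of the component of a place `c` are `c = none`, a dummy `w = some none` and, for
`δ : D` and `i : Fin r`, the nodes `a δ i = some (some (δ, i, false))` and
`b δ i = some (some (δ, i, true))`.  The edges are `c - a δ 0`, `a δ i - b δ i`,
`b δ i - a δ (i + 1)` and `b δ (r - 1) - w`.
-/

set_option autoImplicit false

namespace H36MX

open scoped Classical

/-- The nodes of one component. -/
abbrev Nd (D : Type) (r : ℕ) : Type := Option (Option (D × Fin r × Bool))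

/-- The node `a δ i`. -/
abbrev ndA {D : Type} {r : ℕ} (δ : D) (i : Fin r) : Nd D r := some (some (δ, i, false))

/-- The node `b δ i`. -/
abbrev ndB {D : Type} {r : ℕ} (δ : D) (i : Fin r) : Nd D r := some (some (δ, i, true))

/-- The oriented edges. -/
def Eo {D : Type} {r : ℕ} : Nd D r → Nd D r → Prop
  | none, some (some (_, i, false)) => i.val = 0
  | some (some (δ, i, false)), some (some (δ', i', true)) => δ = δ' ∧ i = i'
  | some (some (δ, i, true)), some (some (δ', i', false)) => δ = δ' ∧ i'.val = i.val + 1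
  | some (some (_, i, true)), some none => i.val + 1 = r
  | _, _ => False

/-- The edges. -/
def Ee {D : Type} {r : ℕ} (x y : Nd D r) : Prop := Eo x y ∨ Eo y x

theorem Ee_symm {D : Type} {r : ℕ} {x y : Nd D r} (h : Ee x y) : Ee y x := h.symm

theorem Eo_irr {D : Type} {r : ℕ} (x : Nd D r) : ¬ Eo x x := by
  rcases x with _ | _ | ⟨δ, i, _ | _⟩ <;> simp [Eo]

theorem Ee_irr {D : Type} {r : ℕ} (x : Nd D r) : ¬ Ee x x := fun h =>
  h.elim (Eo_irr x) (Eo_irr x)

/-- The edges on all components. -/
def EJ {P D : Type} {r : ℕ} (x y : P × Nd D r) : Prop := x.1 = y.1 ∧ Ee x.2 y.2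

theorem EJ_symm {P D : Type} {r : ℕ} {x y : P × Nd D r} (h : EJ x y) : EJ y x :=
  ⟨h.1.symm, Ee_symm h.2⟩

theorem EJ_irr {P D : Type} {r : ℕ} (x : P × Nd D r) : ¬ EJ x x := fun h => Ee_irr _ h.2

section component

variable {D : Type} [Fintype D] {r : ℕ}

/-- The sum over the neighbours of a node `b δ i` with `i + 1 < r`. -/
theorem sum_b {f : Nd D r → ZMod 2} (δ : D) (i i' : Fin r) (hi : i'.val = i.val + 1) :
    ∑ k, (if Ee (ndB δ i) k then f k else 0) = f (ndA δ i) + f (ndA δ i') := by
  rw [← Finset.sum_filter]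
  have h1 : Finset.univ.filter (fun k => Ee (ndB δ i) k) = {ndA δ i, ndA δ i'} := by
    ext k
    simp only [Finset.mem_filter, Finset.mem_univ, true_and, Finset.mem_insert,
      Finset.mem_singleton]
    rcases k with _ | _ | ⟨δ', j, _ | _⟩
    · simp [Ee, Eo, ndB]
    · simp only [Ee, Eo, or_false, ndB, ndA, reduceCtorEq, Option.some.injEq, iff_false]
      have := i'.isLt
      omega
    · simp only [Ee, Eo, ndB, ndA, Option.some.injEq, Prod.mk.injEq, and_true]
      constructor
      · rintro (⟨h2, h3⟩ | ⟨h2, h3⟩)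
        · right
          exact ⟨h2.symm, Fin.ext (by rw [h3, hi])⟩
        · left
          exact ⟨h2, h3⟩
      · rintro (⟨h2, h3⟩ | ⟨h2, h3⟩)
        · right
          exact ⟨h2, h3⟩
        · left
          exact ⟨h2.symm, by rw [h3, hi]⟩
    · simp [Ee, Eo, ndB, ndA]
  rw [h1, Finset.sum_pair]
  simp only [ndA, ne_eq, Option.some.injEq, Prod.mk.injEq, true_and, and_true]
  intro h2
  rw [← h2] at hi
  omega

/-- The sum over the neighbours of the node `b δ i` with `i + 1 = r`. -/
theorem sum_bl {f : Nd D r → ZMod 2} (δ : D) (i : Fin r) (hi : i.val + 1 = r) :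
    ∑ k, (if Ee (ndB δ i) k then f k else 0) = f (ndA δ i) + f (some none) := by
  rw [← Finset.sum_filter]
  have h1 : Finset.univ.filter (fun k => Ee (ndB δ i) k) = {ndA δ i, some none} := by
    ext k
    simp only [Finset.mem_filter, Finset.mem_univ, true_and, Finset.mem_insert,
      Finset.mem_singleton]
    rcases k with _ | _ | ⟨δ', j, _ | _⟩
    · simp [Ee, Eo, ndB]
    · simp [Ee, Eo, ndB, hi]
    · simp only [Ee, Eo, ndB, ndA, Option.some.injEq, Prod.mk.injEq, and_true, reduceCtorEq,
        or_false]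
      constructor
      · rintro (⟨h2, h3⟩ | ⟨h2, h3⟩)
        · exfalso
          have := j.isLt
          omega
        · exact ⟨h2, h3⟩
      · rintro ⟨h2, h3⟩
        right
        exact ⟨h2, h3⟩
    · simp [Ee, Eo, ndB, ndA]
  rw [h1, Finset.sum_pair]
  simp [ndA]

/-- The sum over the neighbours of a node `a δ i'` with `i' = i + 1`. -/
theorem sum_a {f : Nd D r → ZMod 2} (δ : D) (i i' : Fin r) (hi : i'.val = i.val + 1) :
    ∑ k, (if Ee (ndA δ i') k then f k else 0) = f (ndB δ i') + f (ndB δ i) := by
  rw [← Finset.sum_filter]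
  have h1 : Finset.univ.filter (fun k => Ee (ndA δ i') k) = {ndB δ i', ndB δ i} := by
    ext k
    simp only [Finset.mem_filter, Finset.mem_univ, true_and, Finset.mem_insert,
      Finset.mem_singleton]
    rcases k with _ | _ | ⟨δ', j, _ | _⟩
    · simp only [Ee, Eo, ndB, ndA, false_or, reduceCtorEq, Option.some.injEq, or_false,
        iff_false]
      omega
    · simp [Ee, Eo, ndB, ndA]
    · simp [Ee, Eo, ndB, ndA]
    · simp only [Ee, Eo, ndB, ndA, Option.some.injEq, Prod.mk.injEq, and_true]
      constructor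
      · rintro (⟨h2, h3⟩ | ⟨h2, h3⟩)
        · left
          exact ⟨h2.symm, h3.symm⟩
        · right
          exact ⟨h2, Fin.ext (by omega)⟩
      · rintro (⟨h2, h3⟩ | ⟨h2, h3⟩)
        · left
          exact ⟨h2.symm, h3.symm⟩
        · right
          exact ⟨h2, by rw [h3, hi]⟩
  rw [h1, Finset.sum_pair]
  simp only [ndB, ne_eq, Option.some.injEq, Prod.mk.injEq, true_and, and_true]
  intro h2
  rw [← h2] at hi
  omega

/-- The sum over the neighbours of a node `a δ 0`. -/
theorem sum_a0 {f : Nd D r → ZMod 2} (δ : D) (i : Fin r) (hi : i.val = 0) :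
    ∑ k, (if Ee (ndA δ i) k then f k else 0) = f (ndB δ i) + f none := by
  rw [← Finset.sum_filter]
  have h1 : Finset.univ.filter (fun k => Ee (ndA δ i) k) = {ndB δ i, none} := by
    ext k
    simp only [Finset.mem_filter, Finset.mem_univ, true_and, Finset.mem_insert,
      Finset.mem_singleton]
    rcases k with _ | _ | ⟨δ', j, _ | _⟩
    · simp [Ee, Eo, ndA, hi]
    · simp [Ee, Eo, ndB, ndA]
    · simp [Ee, Eo, ndB, ndA]
    · simp only [Ee, Eo, ndB, ndA, Option.some.injEq, Prod.mk.injEq, and_true, reduceCtorEq,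
        or_false]
      constructor
      · rintro (⟨h2, h3⟩ | ⟨h2, h3⟩)
        · exact ⟨h2.symm, h3.symm⟩
        · exfalso
          omega
      · rintro ⟨h2, h3⟩
        left
        exact ⟨h2.symm, h3.symm⟩
  rw [h1, Finset.sum_pair]
  simp [ndB]

/-- The sum over the neighbours of the dummy node. -/
theorem sum_w {f : Nd D r → ZMod 2} (i : Fin r) (hi : i.val + 1 = r) :
    ∑ k, (if Ee (some none) k then f k else 0) = ∑ δ : D, f (ndB δ i) := by
  rw [Fintype.sum_option, Fintype.sum_option, Fintype.sum_prod_type]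
  have h1 : ¬ Ee (some none : Nd D r) none := by simp [Ee, Eo]
  have h2 : ¬ Ee (some none : Nd D r) (some none) := by simp [Ee, Eo]
  rw [if_neg h1, if_neg h2, zero_add, zero_add]
  refine Finset.sum_congr rfl fun δ _ => ?_
  rw [Fintype.sum_prod_type, Finset.sum_eq_single i]
  · rw [Fintype.sum_bool]
    have h3 : Ee (some none : Nd D r) (some (some (δ, i, true))) := Or.inr hi
    have h4 : ¬ Ee (some none : Nd D r) (some (some (δ, i, false))) := by simp [Ee, Eo]
    rw [if_pos h3, if_neg h4, add_zero]
  · intro j _ hj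
    rw [Fintype.sum_bool]
    have h3 : ¬ Ee (some none : Nd D r) (some (some (δ, j, true))) := by
      simp only [Ee, Eo, false_or]
      intro h5
      exact hj (Fin.ext (by omega))
    have h4 : ¬ Ee (some none : Nd D r) (some (some (δ, j, false))) := by simp [Ee, Eo]
    rw [if_neg h3, if_neg h4, add_zero]
  · intro h
    exact absurd (Finset.mem_univ i) h

/-- The sum over the neighbours of the central node. -/
theorem sum_c {f : Nd D r → ZMod 2} (i : Fin r) (hi : i.val = 0) :
    ∑ k, (if Ee none k then f k else 0) = ∑ δ : D, f (ndA δ i) := by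
  rw [Fintype.sum_option, Fintype.sum_option, Fintype.sum_prod_type]
  have h1 : ¬ Ee (none : Nd D r) none := by simp [Ee, Eo]
  have h2 : ¬ Ee (none : Nd D r) (some none) := by simp [Ee, Eo]
  rw [if_neg h1, if_neg h2, zero_add, zero_add]
  refine Finset.sum_congr rfl fun δ _ => ?_
  rw [Fintype.sum_prod_type, Finset.sum_eq_single i]
  · rw [Fintype.sum_bool]
    have h3 : Ee (none : Nd D r) (some (some (δ, i, false))) := Or.inl hi
    have h4 : ¬ Ee (none : Nd D r) (some (some (δ, i, true))) := by simp [Ee, Eo]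
    rw [if_pos h3, if_neg h4, zero_add]
  · intro j _ hj
    rw [Fintype.sum_bool]
    have h3 : ¬ Ee (none : Nd D r) (some (some (δ, j, false))) := by
      simp only [Ee, Eo, or_false]
      intro h5
      exact hj (Fin.ext (by omega))
    have h4 : ¬ Ee (none : Nd D r) (some (some (δ, j, true))) := by simp [Ee, Eo]
    rw [if_neg h3, if_neg h4, add_zero]
  · intro h
    exact absurd (Finset.mem_univ i) h

end component

end H36MX
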