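import Pool.Agent.H88.MX.Ec

/-!
# The linear system on one component of the graph has only the trivial solution
-/

set_option autoImplicit false

namespace H36MX

open scoped Classical

variable {D : Type} [Fintype D] {r : ℕ}

/-- The linear system on one component.  `s x y` are the weights, `on i δ` says that the nodes
`a δ i` and `b δ i` are on. -/
theorem comp_zero (hr : 0 < r) (on : Fin r → D → Prop) (δ₀ : D) (h0 : ∀ i, on i δ₀)
    (hsep : ∀ δ, δ ≠ δ₀ → ∃ i, ¬ on i δ) (s : Nd D r → Nd D r → ZMod 2) (κ : Nd D r → ZMod 2)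
    (hA : ∀ δ i, on i δ → ∀ y, Ee (ndA δ i) y → s (ndA δ i) y = 1)
    (hB : ∀ δ i, on i δ → ∀ y, Ee (ndB δ i) y → s (ndB δ i) y = 1)
    (hA0 : ∀ δ i, ¬ on i δ → κ (ndA δ i) = 0)
    (hB0 : ∀ δ i, ¬ on i δ → κ (ndB δ i) = 0)
    (hw : ∀ y, Ee (some none) y → s (some none) y = 1)
    (hc : ∀ i : Fin r, i.val = 0 → s none (ndA δ₀ i) = 1)
    (hsys : ∀ x, ∑ y, (if Ee x y then s x y * s y x * κ y else 0) = 0) : ∀ x, κ x = 0 := by
  -- weights at `a` and `b` nodes may be dropped
  have wA : ∀ δ i y, Ee (ndA δ i) y → s (ndA δ i) y * κ (ndA δ i) = κ (ndA δ i) := by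
    intro δ i y hy
    by_cases h : on i δ
    · rw [hA δ i h y hy, one_mul]
    · rw [hA0 δ i h, mul_zero]
  have wB : ∀ δ i y, Ee (ndB δ i) y → s (ndB δ i) y * κ (ndB δ i) = κ (ndB δ i) := by
    intro δ i y hy
    by_cases h : on i δ
    · rw [hB δ i h y hy, one_mul]
    · rw [hB0 δ i h, mul_zero]
  have two : ∀ a b : ZMod 2, a + b = 0 → a = b := by decide
  -- edges
  have eAB : ∀ (δ : D) (i : Fin r), Ee (ndA δ i) (ndB δ i) := fun δ i => Or.inl ⟨rfl, rfl⟩
  have eBA : ∀ (δ : D) (i i' : Fin r), i'.val = i.val + 1 → Ee (ndB δ i) (ndA δ i') :=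
    fun δ i i' h => Or.inl ⟨rfl, h⟩
  have eBw : ∀ (δ : D) (i : Fin r), i.val + 1 = r → Ee (ndB δ i) (some none) :=
    fun δ i h => Or.inl h
  have ecA : ∀ (δ : D) (i : Fin r), i.val = 0 → Ee none (ndA δ i) := fun δ i h => Or.inl h
  -- equation at `b δ i`, `i + 1 < r`
  have qB : ∀ (δ : D) (i i' : Fin r), i'.val = i.val + 1 → on i δ →
      κ (ndA δ i) = κ (ndA δ i') := by
    intro δ i i' hi h
    have h1 := hsys (ndB δ i)
    rw [sum_b δ i i' hi, hB δ i h _ (Ee_symm (eAB δ i)), hB δ i h _ (eBA δ i i' hi), one_mul,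
      one_mul, wA δ i _ (eAB δ i), wA δ i' _ (Ee_symm (eBA δ i i' hi))] at h1
    exact two _ _ h1
  have qBl : ∀ (δ : D) (i : Fin r), i.val + 1 = r → on i δ → κ (ndA δ i) = κ (some none) := by
    intro δ i hi h
    have h1 := hsys (ndB δ i)
    rw [sum_bl δ i hi, hB δ i h _ (Ee_symm (eAB δ i)), hB δ i h _ (eBw δ i hi), one_mul,
      one_mul, wA δ i _ (eAB δ i), hw _ (Ee_symm (eBw δ i hi)), one_mul] at h1
    exact two _ _ h1
  have qA : ∀ (δ : D) (i i' : Fin r), i'.val = i.val + 1 → on i' δ →
      κ (ndB δ i') = κ (ndB δ i) := by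
    intro δ i i' hi h
    have h1 := hsys (ndA δ i')
    rw [sum_a δ i i' hi, hA δ i' h _ (eAB δ i'), hA δ i' h _ (Ee_symm (eBA δ i i' hi)), one_mul,
      one_mul, wB δ i' _ (Ee_symm (eAB δ i')), wB δ i _ (eBA δ i i' hi)] at h1
    exact two _ _ h1
  have qA0 : ∀ (δ : D) (i : Fin r), i.val = 0 → on i δ →
      κ (ndB δ i) = s none (ndA δ i) * κ none := by
    intro δ i hi h
    have h1 := hsys (ndA δ i)
    rw [sum_a0 δ i hi, hA δ i h _ (eAB δ i), hA δ i h _ (Ee_symm (ecA δ i hi)), one_mul,
      one_mul, wB δ i _ (Ee_symm (eAB δ i))] at h1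
    exact two _ _ h1
  -- first node `a δ 0` of a chain with an off node
  have a0 : ∀ δ, δ ≠ δ₀ → ∀ i : Fin r, i.val = 0 → κ (ndA δ i) = 0 := by
    intro δ hδ i hi
    obtain ⟨j, hj⟩ := hsep δ hδ
    -- descending induction: all `a δ l` with `l ≤ j` vanish
    have key : ∀ n : ℕ, ∀ l : Fin r, l.val + n = j.val → κ (ndA δ l) = 0 := by
      intro n
      induction n with
      | zero =>
        intro l hl
        have : l = j := Fin.ext (by omega)
        rw [this]
        exact hA0 δ j hj
      | succ n ih =>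
        intro l hl
        by_cases hon : on l δ
        · have hlt : l.val + 1 < r := by have := j.isLt; omega
          rw [qB δ l ⟨l.val + 1, hlt⟩ rfl hon]
          exact ih _ (by simp only []; omega)
        · exact hA0 δ l hon
    exact key j.val i (by omega)
  -- all `a δ₀ i` are equal to the value at the dummy
  have aw : ∀ i : Fin r, κ (ndA δ₀ i) = κ (some none) := by
    have key : ∀ n : ℕ, ∀ l : Fin r, l.val + n + 1 = r → κ (ndA δ₀ l) = κ (some none) := by
      intro n
      induction n with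
      | zero =>
        intro l hl
        exact qBl δ₀ l (by omega) (h0 l)
      | succ n ih =>
        intro l hl
        have hlt : l.val + 1 < r := by omega
        rw [qB δ₀ l ⟨l.val + 1, hlt⟩ rfl (h0 l)]
        exact ih _ (by simp only []; omega)
    intro i
    exact key (r - 1 - i.val) i (by have := i.isLt; omega)
  -- the equation at the centre
  have w0 : κ (some none) = 0 := by
    let z : Fin r := ⟨0, hr⟩
    have h1 := hsys none
    rw [sum_c z rfl] at h1
    rw [Finset.sum_eq_single δ₀] at h1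
    · rw [hc z rfl, one_mul, wA δ₀ z _ (Ee_symm (ecA δ₀ z rfl)), aw z] at h1
      exact h1
    · intro δ _ hδ
      rw [a0 δ hδ z rfl, mul_zero]
    · intro h
      exact absurd (Finset.mem_univ δ₀) h
  -- all `a` nodes vanish
  have aall : ∀ δ i, κ (ndA δ i) = 0 := by
    intro δ
    have key : ∀ n : ℕ, ∀ l : Fin r, l.val + n + 1 = r → κ (ndA δ l) = 0 := by
      intro n
      induction n with
      | zero =>
        intro l hl
        by_cases hon : on l δ
        · rw [qBl δ l (by omega) hon, w0]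
        · exact hA0 δ l hon
      | succ n ih =>
        intro l hl
        by_cases hon : on l δ
        · have hlt : l.val + 1 < r := by omega
          rw [qB δ l ⟨l.val + 1, hlt⟩ rfl hon]
          exact ih _ (by simp only []; omega)
        · exact hA0 δ l hon
    intro i
    exact key (r - 1 - i.val) i (by have := i.isLt; omega)
  -- last node `b δ (r - 1)` of a chain with an off node
  have bl : ∀ δ, δ ≠ δ₀ → ∀ i : Fin r, i.val + 1 = r → κ (ndB δ i) = 0 := by
    intro δ hδ i hi
    obtain ⟨j, hj⟩ := hsep δ hδ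
    have key : ∀ n : ℕ, ∀ l : Fin r, l.val = j.val + n → κ (ndB δ l) = 0 := by
      intro n
      induction n with
      | zero =>
        intro l hl
        have : l = j := Fin.ext (by omega)
        rw [this]
        exact hB0 δ j hj
      | succ n ih =>
        intro l hl
        by_cases hon : on l δ
        · have hlt : j.val + n < r := by have := l.isLt; omega
          rw [qA δ ⟨j.val + n, hlt⟩ l (by simp only []; omega) hon]
          exact ih _ rfl
        · exact hB0 δ l hon
    exact key (i.val - j.val) i (by have := j.isLt; omega)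
  -- all `b δ₀ i` are equal to the value at the centre
  have bc : ∀ i : Fin r, κ (ndB δ₀ i) = κ none := by
    have key : ∀ n : ℕ, ∀ l : Fin r, l.val = n → κ (ndB δ₀ l) = κ none := by
      intro n
      induction n with
      | zero =>
        intro l hl
        rw [qA0 δ₀ l hl (h0 l), hc l hl, one_mul]
      | succ n ih =>
        intro l hl
        have hlt : n < r := by have := l.isLt; omega
        rw [qA δ₀ ⟨n, hlt⟩ l (by simp only []; omega) (h0 l)]
        exact ih _ rfl
    intro i
    exact key i.val i rfl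
  -- the equation at the dummy
  have c0 : κ none = 0 := by
    let z : Fin r := ⟨r - 1, by omega⟩
    have hz : z.val + 1 = r := by simp only [z]; omega
    have h1 := hsys (some none)
    rw [sum_w z hz] at h1
    rw [Finset.sum_eq_single δ₀] at h1
    · rw [hw _ (Ee_symm (eBw δ₀ z hz)), one_mul, wB δ₀ z _ (eBw δ₀ z hz), bc z] at h1
      exact h1
    · intro δ _ hδ
      rw [bl δ hδ z hz, mul_zero]
    · intro h
      exact absurd (Finset.mem_univ δ₀) h
  -- all `b` nodes vanish
  have ball : ∀ δ i, κ (ndB δ i) = 0 := by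
    intro δ
    have key : ∀ n : ℕ, ∀ l : Fin r, l.val = n → κ (ndB δ l) = 0 := by
      intro n
      induction n with
      | zero =>
        intro l hl
        by_cases hon : on l δ
        · rw [qA0 δ l hl hon, c0, mul_zero]
        · exact hB0 δ l hon
      | succ n ih =>
        intro l hl
        by_cases hon : on l δ
        · have hlt : n < r := by have := l.isLt; omega
          rw [qA δ ⟨n, hlt⟩ l (by simp only []; omega) hon]
          exact ih _ rfl
        · exact hB0 δ l hon
    intro i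
    exact key i.val i rfl
  intro x
  rcases x with _ | _ | ⟨δ, i, _ | _⟩
  · exact c0
  · exact w0
  · exact aall δ i
  · exact ball δ i

/-- A vector of the Lagrangian subspace attached to the graph which satisfies the local
conditions for the twist `δ₀` is zero. -/
theorem graph_zero {P : Type} [Fintype P] {X : P × Nd D r → Type} [∀ j, AddCommGroup (X j)]
    [∀ j, Module (ZMod 2) (X j)] {h : ∀ j, X j →ₗ[ZMod 2] X j →ₗ[ZMod 2] ZMod 2}
    (hsy : ∀ j x y, h j x y = h j y x) (hnd : ∀ j x, x ≠ 0 → ∃ y, h j x y = 1)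
    {m : ∀ j, X j} {lam : ∀ j, P × Nd D r → X j} (hr : 0 < r)
    (g : ∀ j, X j) (on : P → Fin r → D → Prop) (δ₀ : D) (h0 : ∀ p i, on p i δ₀)
    (hsep : ∀ p δ, δ ≠ δ₀ → ∃ i, ¬ on p i δ)
    (hon : ∀ p δ i, on p i δ → ∀ y : Nd D r,
      (Ee (ndA δ i) y → h (p, ndA δ i) (g (p, ndA δ i)) (lam (p, ndA δ i) (p, y)) = 1) ∧
      (Ee (ndB δ i) y → h (p, ndB δ i) (g (p, ndB δ i)) (lam (p, ndB δ i) (p, y)) = 1))
    (hoff : ∀ p δ i, ¬ on p i δ → g (p, ndA δ i) = 0 ∧ g (p, ndB δ i) = 0)
    (hw : ∀ p (y : Nd D r), Ee (some none) y →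
      h (p, some none) (g (p, some none)) (lam (p, some none) (p, y)) = 1)
    (hc : ∀ p (i : Fin r), i.val = 0 → h (p, none) (g (p, none)) (lam (p, none) (p, ndA δ₀ i)) = 1)
    {q : ∀ j, X j × X j} (hq : q ∈ Wst h m EJ lam)
    (hloc : ∀ j, LocE (h j) (m j) (g j) (q j)) : q = 0 := by
  refine elim hsy hnd hq g hloc ?_
  intro κ hκ hsys
  rintro ⟨p, x⟩
  refine comp_zero hr (on p) δ₀ (h0 p) (hsep p)
    (fun x y => h (p, x) (g (p, x)) (lam (p, x) (p, y))) (fun x => κ (p, x))
    (fun δ i hi y => (hon p δ i hi y).1) (fun δ i hi y => (hon p δ i hi y).2)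
    (fun δ i hi => hκ _ (hoff p δ i hi).1) (fun δ i hi => hκ _ (hoff p δ i hi).2)
    (hw p) (hc p) ?_ x
  intro x
  have h1 := hsys (p, x)
  rw [Fintype.sum_prod_type, Finset.sum_eq_single p] at h1
  · refine Eq.trans (Finset.sum_congr rfl fun y _ => ?_) h1
    have h2 : EJ (p, x) (p, y) ↔ Ee x y := ⟨fun h3 => h3.2, fun h3 => ⟨rfl, h3⟩⟩
    by_cases h3 : Ee x y
    · rw [if_pos h3, if_pos (h2.2 h3)]
    · rw [if_neg h3, if_neg (fun h4 => h3 (h2.1 h4))]
  · intro p' _ hp'
    refine Finset.sum_eq_zero fun y _ => ?_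
    rw [if_neg]
    intro h2
    exact hp' h2.1.symm
  · intro h2
    exact absurd (Finset.mem_univ p) h2

end H36MX
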